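import Pool.Agent.N116.EW.Stm
import Pool.Agent.H984R4.NP.PL

/-!
Project EW, part EW7: piecewise linear curves with matched pieces.
-/

set_option autoImplicit false

namespace Pool.Agent.N839.EW

open H974 H12S H389NS H984N H984P H342P Finset Pool.Agent.N116.EW

theorem clamp_mono {x y : ℝ} (h : x ≤ y) : clamp x ≤ clamp y := by
  unfold clamp
  exact max_le_max le_rfl (min_le_min le_rfl h)

theorem clamp_lt {x y : ℝ} (hx0 : 0 ≤ x) (hx1 : x < 1) (h : x < y) : clamp x < clamp y := by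
  rw [pl_clamp_id hx0 hx1.le]
  rcases le_or_gt 1 y with hy | hy
  · rw [pl_clamp_one hy]; exact hx1
  · rw [pl_clamp_id (by linarith) hy.le]; exact h

theorem clamp_cont : Continuous clamp := by unfold clamp; fun_prop

/-- the piecewise linear homeomorphism -/
noncomputable def hm (N N' m : ℕ) (a b : ℕ → ℕ) (s : ℝ) : ℝ :=
  ∑ i ∈ range m, (((b (i + 1) : ℝ) - b i) / N') * clamp ((s * N - a i) / ((a (i + 1) : ℝ) - a i))

section

variable {N N' m : ℕ} {a b : ℕ → ℕ} (hN : 0 < N) (hN' : 0 < N') (ha0 : a 0 = 0) (hb0 : b 0 = 0)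
  (ham : a m = N) (hbm : b m = N') (ha : ∀ i < m, a i < a (i + 1)) (hb : ∀ i < m, b i < b (i + 1))

include ha in
theorem a_mono {i j : ℕ} (hij : i ≤ j) (hj : j ≤ m) : a i ≤ a j := by
  induction j with
  | zero => simp at hij; subst hij; exact le_rfl
  | succ j ih =>
    rcases Nat.lt_or_ge i (j + 1) with h | h
    · exact (ih (by omega) (by omega)).trans (ha j (by omega)).le
    · have : i = j + 1 := by omega
      rw [this]

theorem hm_cont : Continuous (hm N N' m a b) := by
  unfold hm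
  refine continuous_finsetSum _ fun i _ => continuous_const.mul (clamp_cont.comp ?_)
  fun_prop

include hN ha0 ham in
theorem exists_seg {s : ℝ} (h0 : 0 ≤ s) (h1 : s ≤ 1) :
    ∃ i < m, (a i : ℝ) ≤ s * N ∧ s * N ≤ a (i + 1) := by
  have hsN0 : 0 ≤ s * N := by positivity
  have hsN : s * N ≤ a m := by
    rw [ham]
    have : (0 : ℝ) ≤ N := Nat.cast_nonneg N
    nlinarith
  have hm0 : m ≠ 0 := by
    rintro rfl
    rw [ha0] at ham; omega
  classical
  have hex : ∃ j, s * N ≤ a j := ⟨m, hsN⟩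
  have hj := Nat.find_spec hex
  rcases Nat.eq_zero_or_pos (Nat.find hex) with h | h
  · rw [h, ha0] at hj
    refine ⟨0, by omega, by rw [ha0]; simpa using hsN0, ?_⟩
    have : s * N ≤ 0 := by simpa using hj
    exact this.trans (Nat.cast_nonneg _)
  · refine ⟨Nat.find hex - 1, ?_, ?_, ?_⟩
    · have := Nat.find_min' hex hsN
      omega
    · have := Nat.find_min hex (m := Nat.find hex - 1) (by omega)
      exact (not_le.1 this).le
    · rw [Nat.sub_add_cancel h]
      exact hj

include hN ha0 ham in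
theorem exists_seg' {s : ℝ} (h0 : 0 ≤ s) (h1 : s < 1) :
    ∃ i < m, (a i : ℝ) ≤ s * N ∧ s * N < a (i + 1) := by
  have hsN0 : 0 ≤ s * N := by positivity
  have hsN : s * N < a m := by
    rw [ham]
    have : (0 : ℝ) < N := Nat.cast_pos.2 hN
    nlinarith
  classical
  have hex : ∃ j, s * N < a j := ⟨m, hsN⟩
  have hj := Nat.find_spec hex
  have h : 0 < Nat.find hex := by
    rcases Nat.eq_zero_or_pos (Nat.find hex) with h | h
    · rw [h, ha0] at hj
      exact absurd hj (by simpa using hsN0)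
    · exact h
  refine ⟨Nat.find hex - 1, ?_, ?_, ?_⟩
  · have := Nat.find_min' hex hsN
    omega
  · have := Nat.find_min hex (m := Nat.find hex - 1) (by omega)
    exact not_lt.1 this
  · rw [Nat.sub_add_cancel h]
    exact hj

include hN hN' ha0 ham ha hb in
theorem hm_lt {s t : ℝ} (h0 : 0 ≤ s) (hst : s < t) (h1 : t ≤ 1) :
    hm N N' m a b s < hm N N' m a b t := by
  have hNr : (0 : ℝ) < N := Nat.cast_pos.2 hN
  have hN'r : (0 : ℝ) < N' := Nat.cast_pos.2 hN'
  obtain ⟨i, hi, hi1, hi2⟩ := exists_seg' (m := m) (a := a) hN ha0 ham h0 (hst.trans_le h1)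
  have hda : ∀ j < m, (0 : ℝ) < (a (j + 1) : ℝ) - a j := fun j hj => by
    have : (a j : ℝ) < a (j + 1) := by exact_mod_cast ha j hj
    linarith
  have hdb : ∀ j < m, (0 : ℝ) < ((b (j + 1) : ℝ) - b j) / N' := fun j hj => by
    have : (b j : ℝ) < b (j + 1) := by exact_mod_cast hb j hj
    have : (0 : ℝ) < (b (j + 1) : ℝ) - b j := by linarith
    positivity
  unfold hm
  refine Finset.sum_lt_sum (fun j hj => ?_) ⟨i, Finset.mem_range.2 hi, ?_⟩
  · rw [Finset.mem_range] at hj
    refine mul_le_mul_of_nonneg_left (clamp_mono ?_) (hdb j hj).le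
    apply div_le_div_of_nonneg_right _ (hda j hj).le
    nlinarith
  · refine mul_lt_mul_of_pos_left ?_ (hdb i hi)
    refine clamp_lt (div_nonneg (by linarith) (hda i hi).le) ?_ ?_
    · rw [div_lt_one (hda i hi)]; linarith
    · apply div_lt_div_of_pos_right _ (hda i hi)
      nlinarith

include ha in
theorem hm_seg {i : ℕ} (hi : i < m) {s : ℝ} (h1 : (a i : ℝ) ≤ s * N) (h2 : s * N ≤ a (i + 1))
    (hb0 : b 0 = 0) :
    hm N N' m a b s = (b i + ((b (i + 1) : ℝ) - b i) *
      ((s * N - a i) / ((a (i + 1) : ℝ) - a i))) / N' := by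
  have hda : ∀ j < m, (0 : ℝ) < (a (j + 1) : ℝ) - a j := fun j hj => by
    have : (a j : ℝ) < a (j + 1) := by exact_mod_cast ha j hj
    linarith
  unfold hm
  obtain ⟨r, rfl⟩ : ∃ r, m = i + 1 + r := ⟨m - (i + 1), by omega⟩
  rw [Finset.sum_range_add, Finset.sum_range_succ]
  have e1 : ∑ j ∈ range i, (((b (j + 1) : ℝ) - b j) / N') *
      clamp ((s * N - a j) / ((a (j + 1) : ℝ) - a j)) = (b i : ℝ) / N' := by
    have : ∀ j ∈ range i, (((b (j + 1) : ℝ) - b j) / N') *
        clamp ((s * N - a j) / ((a (j + 1) : ℝ) - a j)) = (b (j + 1) : ℝ) / N' - b j / N' := by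
      intro j hj
      rw [Finset.mem_range] at hj
      rw [pl_clamp_one]
      · ring
      · rw [one_le_div (hda j (by omega))]
        have h3 : (a (j + 1) : ℝ) ≤ a i := by
          exact_mod_cast a_mono (m := i + 1 + r) ha (by omega) (by omega)
        linarith
    rw [Finset.sum_congr rfl this, Finset.sum_range_sub (fun j => (b j : ℝ) / N'), hb0]
    simp
  have e2 : ∑ j ∈ range r, (((b (i + 1 + j + 1) : ℝ) - b (i + 1 + j)) / N') *
      clamp ((s * N - a (i + 1 + j)) / ((a (i + 1 + j + 1) : ℝ) - a (i + 1 + j))) = 0 := by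
    refine Finset.sum_eq_zero fun j hj => ?_
    rw [Finset.mem_range] at hj
    rw [pl_clamp_zero, mul_zero]
    apply div_nonpos_of_nonpos_of_nonneg _ (hda (i + 1 + j) (by omega)).le
    have h3 : (a (i + 1) : ℝ) ≤ a (i + 1 + j) := by
      exact_mod_cast a_mono (m := i + 1 + r) ha (by omega) (by omega)
    linarith
  have e3 : clamp ((s * N - a i) / ((a (i + 1) : ℝ) - a i)) =
      (s * N - a i) / ((a (i + 1) : ℝ) - a i) := by
    apply pl_clamp_id
    · exact div_nonneg (by linarith) (hda i (by omega)).le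
    · rw [div_le_one (hda i (by omega))]; linarith
  rw [e1, e2, e3]
  ring

end

theorem sub_seg {N : ℕ} {c d : ℕ} (hcd : c < d) (hd : d ≤ N) {x : ℝ} (h1 : (c : ℝ) ≤ x)
    (h2 : x ≤ d) : ∃ k < N, c ≤ k ∧ k + 1 ≤ d ∧ (k : ℝ) ≤ x ∧ x ≤ k + 1 := by
  have hx0 : 0 ≤ x := (Nat.cast_nonneg c).trans h1
  rcases lt_or_ge ⌊x⌋₊ d with h | h
  · exact ⟨⌊x⌋₊, by omega, Nat.le_floor h1, by omega, Nat.floor_le hx0,
      (Nat.lt_floor_add_one _).le⟩
  · refine ⟨d - 1, by omega, by omega, by omega, ?_, ?_⟩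
    · have h3 := Nat.floor_le hx0
      have h4 : (d : ℝ) ≤ ⌊x⌋₊ := by exact_mod_cast h
      rw [Nat.cast_sub (by omega)]
      push_cast
      linarith
    · rw [Nat.cast_sub (by omega)]
      push_cast
      linarith

theorem dist_conv {A B q : ℂ} {u r : ℝ} (h0 : 0 ≤ u) (h1 : u ≤ 1) (hA : dist A q ≤ r)
    (hB : dist B q ≤ r) : dist (A + (u : ℂ) * (B - A)) q ≤ r := by
  rw [dist_eq_norm] at *
  have e : A + (u : ℂ) * (B - A) - q = ((1 - u : ℝ) : ℂ) * (A - q) + (u : ℂ) * (B - q) := by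
    push_cast; ring
  rw [e]
  calc ‖((1 - u : ℝ) : ℂ) * (A - q) + (u : ℂ) * (B - q)‖
      ≤ ‖((1 - u : ℝ) : ℂ) * (A - q)‖ + ‖(u : ℂ) * (B - q)‖ := norm_add_le _ _
    _ = (1 - u) * ‖A - q‖ + u * ‖B - q‖ := by
        rw [norm_mul, norm_mul, Complex.norm_real, Complex.norm_real, Real.norm_eq_abs,
          Real.norm_eq_abs, abs_of_nonneg h0, abs_of_nonneg (by linarith)]
    _ ≤ (1 - u) * r + u * r :=
        add_le_add (mul_le_mul_of_nonneg_left hA (by linarith))
          (mul_le_mul_of_nonneg_left hB h0)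
    _ = r := by ring

theorem plIso : S_PL := by
  intro N N' m p p' a b r hN hN' ha0 hb0 ham hbm ha hb hd
  have hNr : (0 : ℝ) < N := Nat.cast_pos.2 hN
  have hN'r : (0 : ℝ) < N' := Nat.cast_pos.2 hN'
  have hm0 : 0 < m := by
    rcases Nat.eq_zero_or_pos m with h | h
    · rw [h, ha0] at ham; omega
    · exact h
  have f0 : hm N N' m a b 0 = 0 := by
    rw [hm_seg (m := m) ha (i := 0) hm0 (by rw [ha0]; simp) (by simp) hb0, ha0, hb0]
    simp
  have f1 : hm N N' m a b 1 = 1 := by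
    obtain ⟨m, rfl⟩ : ∃ j, m = j + 1 := ⟨m - 1, by omega⟩
    have h1 : (a m : ℝ) < a (m + 1) := by exact_mod_cast ha m (by omega)
    rw [hm_seg (m := m + 1) ha (i := m) (by omega) (by rw [one_mul, ← ham]; exact h1.le)
      (by rw [one_mul, ← ham]) hb0, one_mul, ← ham, div_self (by linarith), ← hbm]
    rw [mul_one, add_sub_cancel, div_self]
    rw [hbm]; exact hN'r.ne'
  have hlt : ∀ s t : unitInterval, s < t →
      hm N N' m a b s < hm N N' m a b t := fun s t hst =>
    hm_lt hN hN' ha0 ham ha hb s.2.1 hst t.2.2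
  have hle : ∀ s t : unitInterval, s ≤ t → hm N N' m a b s ≤ hm N N' m a b t := by
    intro s t hst
    rcases eq_or_lt_of_le hst with h | h
    · rw [h]
    · exact (hlt s t h).le
  have hmem : ∀ s : unitInterval, hm N N' m a b s ∈ unitInterval := by
    intro s
    constructor
    · have := hle 0 s s.2.1
      rwa [show ((0 : unitInterval) : ℝ) = 0 from rfl, f0] at this
    · have := hle s 1 s.2.2
      rwa [show ((1 : unitInterval) : ℝ) = 1 from rfl, f1] at this
  let F : unitInterval → unitInterval := fun s => ⟨hm N N' m a b s, hmem s⟩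
  have hF : StrictMono F := fun s t hst => hlt s t hst
  have hsurj : Function.Surjective F := by
    intro y
    have hc : ContinuousOn (hm N N' m a b) (Set.Icc 0 1) := hm_cont.continuousOn
    have hivt := intermediate_value_Icc (zero_le_one : (0 : ℝ) ≤ 1) hc
    rw [f0, f1] at hivt
    obtain ⟨x, hx, hxy⟩ := hivt y.2
    exact ⟨⟨x, hx⟩, Subtype.ext hxy⟩
  refine ⟨StrictMono.orderIsoOfSurjective F hF hsurj, fun s => ?_⟩
  have hFs : ((StrictMono.orderIsoOfSurjective F hF hsurj s : unitInterval) : ℝ) =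
      hm N N' m a b s := rfl
  set t : unitInterval := StrictMono.orderIsoOfSurjective F hF hsurj s with ht
  obtain ⟨i, hi, hi1, hi2⟩ := exists_seg (m := m) (a := a) hN ha0 ham s.2.1 s.2.2
  have hda : (0 : ℝ) < (a (i + 1) : ℝ) - a i := by
    have : (a i : ℝ) < a (i + 1) := by exact_mod_cast ha i hi
    linarith
  have hdb : (0 : ℝ) < (b (i + 1) : ℝ) - b i := by
    have : (b i : ℝ) < b (i + 1) := by exact_mod_cast hb i hi
    linarith
  have hu0 : 0 ≤ ((s : ℝ) * N - a i) / ((a (i + 1) : ℝ) - a i) :=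
    div_nonneg (by linarith) hda.le
  have hu1 : ((s : ℝ) * N - a i) / ((a (i + 1) : ℝ) - a i) ≤ 1 := by
    rw [div_le_one hda]; linarith
  have htN : (t : ℝ) * N' = b i + ((b (i + 1) : ℝ) - b i) *
      (((s : ℝ) * N - a i) / ((a (i + 1) : ℝ) - a i)) := by
    rw [hFs, hm_seg (m := m) ha hi hi1 hi2 hb0, div_mul_cancel₀ _ hN'r.ne']
  have hb1 : (b i : ℝ) ≤ t * N' := by
    rw [htN]
    nlinarith
  have hb2 : (t : ℝ) * N' ≤ b (i + 1) := by
    rw [htN]
    nlinarith
  have haN : a (i + 1) ≤ N := by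
    rw [← ham]; exact a_mono ha (by omega) le_rfl
  have hbN : b (i + 1) ≤ N' := by
    rw [← hbm]; exact a_mono hb (by omega) le_rfl
  obtain ⟨k, hkN, hk1, hk2, hk3, hk4⟩ := sub_seg (ha i hi) haN hi1 hi2
  obtain ⟨l, hlN, hl1, hl2, hl3, hl4⟩ := sub_seg (hb i hi) hbN hb1 hb2
  rw [pl_seg hkN hk3 hk4, pl_seg hlN hl3 hl4]
  have key : ∀ q, (q = p' l ∨ q = p' (l + 1)) →
      dist (p k + (((s : ℝ) * N - k : ℝ) : ℂ) * (p (k + 1) - p k)) q ≤ r := by
    intro q hq
    refine dist_conv (by linarith) (by linarith) ?_ ?_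
    · rcases hq with rfl | rfl
      · exact hd i hi k l hk1 (by omega) hl1 (by omega)
      · exact hd i hi k (l + 1) hk1 (by omega) (by omega) (by omega)
    · rcases hq with rfl | rfl
      · exact hd i hi (k + 1) l (by omega) (by omega) hl1 (by omega)
      · exact hd i hi (k + 1) (l + 1) (by omega) (by omega) (by omega) (by omega)
  rw [dist_comm]
  refine dist_conv (by linarith) (by linarith) ?_ ?_
  · rw [dist_comm]; exact key _ (Or.inl rfl)
  · rw [dist_comm]; exact key _ (Or.inr rfl)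

end Pool.Agent.N839.EW
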